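import Mathlib

/-!
An explicit polynomial pair `u ≥ v` (depending on `m = n - 1`), showing that the comparison
condition of Li and Nirenberg together with `u_t(0,0) = 0` does not force `u ≡ v`.
-/

namespace Pool.Agent.TH155.Hopf

open scoped BigOperators ContDiff

/-- `|y|²`. -/
noncomputable def nsq {m : ℕ} (y : Fin m → ℝ) : ℝ := ∑ j, y j ^ 2

/-- The Laplacian in all variables `(t,y)`, as the sum of the pure second partial derivatives. -/
noncomputable def lap {m : ℕ} (w : ℝ → (Fin m → ℝ) → ℝ) (t : ℝ) (y : Fin m → ℝ) : ℝ :=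
  deriv (deriv (fun τ => w τ y)) t
    + ∑ j, deriv (deriv (fun η => w t (Function.update y j η))) (y j)

/-- the function `ζ`. -/
noncomputable def ze (s : ℝ) : ℝ := s / 2 + s ^ 2 / 4

/-- profile of `u` as function of `t` and `r = |y|²`. -/
noncomputable def uu (e t r : ℝ) : ℝ := t * r ^ 2 + e * t ^ 7 / 7

/-- profile of `v` as function of `s` and `r = |y|²`. -/
noncomputable def vv (e s r : ℝ) : ℝ :=
  ze s * r ^ 2 + e * ze s ^ 7 / 7 - e * s ^ 7 / 1000 + e * s ^ 5 * r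

lemma nsq_nonneg {m : ℕ} (y : Fin m → ℝ) : 0 ≤ nsq y :=
  Finset.sum_nonneg fun j _ => sq_nonneg (y j)

lemma nsq_update {m : ℕ} (y : Fin m → ℝ) (j : Fin m) (x : ℝ) :
    nsq (Function.update y j x) = (nsq y - y j ^ 2) + x ^ 2 := by
  unfold nsq
  rw [← Finset.add_sum_erase _ _ (Finset.mem_univ j)]
  rw [← Finset.add_sum_erase (Finset.univ) (fun j => y j ^ 2) (Finset.mem_univ j)]
  have : ∑ i ∈ Finset.univ.erase j, Function.update y j x i ^ 2
      = ∑ i ∈ Finset.univ.erase j, y i ^ 2 := by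
    apply Finset.sum_congr rfl
    intro i hi
    rw [Function.update_of_ne (Finset.ne_of_mem_erase hi)]
  rw [this]
  simp only [Function.update_self]
  ring

/-- derivatives of a quartic in `x` of the form `a (c + x²)² + b (c+x²) + d`. -/
lemma second_deriv_quartic (a b c d x : ℝ) :
    deriv (deriv (fun x : ℝ => a * (c + x ^ 2) ^ 2 + b * (c + x ^ 2) + d)) x
      = a * (4 * c + 12 * x ^ 2) + 2 * b := by
  have h1 : deriv (fun x : ℝ => a * (c + x ^ 2) ^ 2 + b * (c + x ^ 2) + d)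
      = fun x => a * (4 * c * x + 4 * x ^ 3) + 2 * b * x := by
    funext x
    have : HasDerivAt (fun x : ℝ => a * (c + x ^ 2) ^ 2 + b * (c + x ^ 2) + d)
        (a * (2 * (c + x ^ 2) * (2 * x)) + b * (2 * x)) x := by
      have hx2 : HasDerivAt (fun x : ℝ => c + x ^ 2) (2 * x) x := by
        simpa using (hasDerivAt_pow 2 x).const_add c
      have h2 : HasDerivAt (fun x : ℝ => (c + x ^ 2) ^ 2) (2 * (c + x ^ 2) * (2 * x)) x := by
        simpa using hx2.fun_pow 2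
      exact ((h2.const_mul a).add (hx2.const_mul b)).add_const d
    rw [this.deriv]; ring
  rw [h1]
  have : HasDerivAt (fun x : ℝ => a * (4 * c * x + 4 * x ^ 3) + 2 * b * x)
      (a * (4 * c * 1 + 4 * (3 * x ^ 2)) + 2 * b * 1) x := by
    have hx3 : HasDerivAt (fun x : ℝ => x ^ 3) (3 * x ^ 2) x := by
      simpa using (hasDerivAt_pow 3 x)
    exact ((((hasDerivAt_id x).const_mul (4 * c)).add (hx3.const_mul 4)).const_mul a).add
      ((hasDerivAt_id x).const_mul (2 * b))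
  rw [this.deriv]; ring

lemma sum_lap {m : ℕ} (a b d : ℝ) (y : Fin m → ℝ) :
    ∑ j, deriv (deriv (fun η => a * (nsq (Function.update y j η)) ^ 2
        + b * (nsq (Function.update y j η)) + d)) (y j)
      = a * (4 * (m + 2) * nsq y) + 2 * m * b := by
  have : ∀ j, deriv (deriv (fun η => a * (nsq (Function.update y j η)) ^ 2
        + b * (nsq (Function.update y j η)) + d)) (y j)
        = a * (4 * nsq y) + a * 8 * y j ^ 2 + 2 * b := by
    intro j
    have h : (fun η => a * (nsq (Function.update y j η)) ^ 2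
        + b * (nsq (Function.update y j η)) + d)
        = fun x : ℝ => a * ((nsq y - y j ^ 2) + x ^ 2) ^ 2 + b * ((nsq y - y j ^ 2) + x ^ 2) + d := by
      funext x
      rw [nsq_update]
    rw [h, second_deriv_quartic]
    ring
  simp_rw [this]
  rw [Finset.sum_add_distrib, Finset.sum_add_distrib]
  have h8 : ∑ j, a * 8 * y j ^ 2 = a * 8 * nsq y := by
    unfold nsq; rw [Finset.mul_sum]
  rw [h8]
  simp only [Finset.sum_const, Finset.card_univ, Fintype.card_fin, nsmul_eq_mul]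
  ring

lemma hasDerivAt_ze (s : ℝ) : HasDerivAt ze (1 / 2 + s / 2) s := by
  have h2 : HasDerivAt (fun s : ℝ => s ^ 2) (2 * s) s := by simpa using hasDerivAt_pow 2 s
  have := ((hasDerivAt_id s).div_const 2).add (h2.div_const 4)
  have e : (1 : ℝ) / 2 + 2 * s / 4 = 1 / 2 + s / 2 := by ring
  rw [e] at this
  exact this

lemma deriv_uu (e r : ℝ) : deriv (fun t => uu e t r) = fun t => r ^ 2 + e * t ^ 6 := by
  funext t
  have h7 : HasDerivAt (fun s : ℝ => s ^ 7) (7 * t ^ 6) t := by simpa using hasDerivAt_pow 7 t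
  have := ((hasDerivAt_id t).mul_const (r ^ 2)).add ((h7.const_mul e).div_const 7)
  have h : HasDerivAt (fun t => uu e t r) (1 * r ^ 2 + e * (7 * t ^ 6) / 7) t := this
  rw [h.deriv]; ring

lemma deriv2_uu (e r t : ℝ) : deriv (deriv (fun t => uu e t r)) t = 6 * e * t ^ 5 := by
  rw [deriv_uu]
  have h6 : HasDerivAt (fun s : ℝ => s ^ 6) (6 * t ^ 5) t := by simpa using hasDerivAt_pow 6 t
  have h : HasDerivAt (fun t => r ^ 2 + e * t ^ 6) (e * (6 * t ^ 5)) t :=
    (h6.const_mul e).const_add (r ^ 2)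
  rw [h.deriv]; ring

lemma deriv_vv (e r : ℝ) : deriv (fun s => vv e s r) = fun s =>
    (1 / 2 + s / 2) * r ^ 2 + e * (ze s ^ 6 * (1 / 2 + s / 2)) - 7 * e * s ^ 6 / 1000
      + 5 * e * s ^ 4 * r := by
  funext s
  have h7 : HasDerivAt (fun s : ℝ => s ^ 7) (7 * s ^ 6) s := by simpa using hasDerivAt_pow 7 s
  have h5 : HasDerivAt (fun s : ℝ => s ^ 5) (5 * s ^ 4) s := by simpa using hasDerivAt_pow 5 s
  have hz7 : HasDerivAt (fun s : ℝ => ze s ^ 7) (7 * ze s ^ 6 * (1 / 2 + s / 2)) s := by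
    simpa using (hasDerivAt_ze s).fun_pow 7
  have h : HasDerivAt (fun s => vv e s r)
      ((1 / 2 + s / 2) * r ^ 2 + e * (7 * ze s ^ 6 * (1 / 2 + s / 2)) / 7
        - e * (7 * s ^ 6) / 1000 + e * (5 * s ^ 4) * r) s :=
    ((((hasDerivAt_ze s).mul_const (r ^ 2)).add ((hz7.const_mul e).div_const 7)).sub
      ((h7.const_mul e).div_const 1000)).add ((h5.const_mul e).mul_const r)
  rw [h.deriv]; ring

lemma deriv2_vv (e r s : ℝ) : deriv (deriv (fun s => vv e s r)) s =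
    r ^ 2 / 2 + 6 * e * ze s ^ 5 * (1 / 2 + s / 2) ^ 2 + e * ze s ^ 6 / 2
      - 42 * e * s ^ 5 / 1000 + 20 * e * s ^ 3 * r := by
  rw [deriv_vv]
  have h6 : HasDerivAt (fun s : ℝ => s ^ 6) (6 * s ^ 5) s := by simpa using hasDerivAt_pow 6 s
  have h4 : HasDerivAt (fun s : ℝ => s ^ 4) (4 * s ^ 3) s := by simpa using hasDerivAt_pow 4 s
  have hz6 : HasDerivAt (fun s : ℝ => ze s ^ 6) (6 * ze s ^ 5 * (1 / 2 + s / 2)) s := by
    simpa using (hasDerivAt_ze s).fun_pow 6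
  have hl : HasDerivAt (fun s : ℝ => 1 / 2 + s / 2) (1 / 2) s :=
    ((hasDerivAt_id s).div_const 2).const_add (1 / 2)
  have h : HasDerivAt (fun s => (1 / 2 + s / 2) * r ^ 2 + e * (ze s ^ 6 * (1 / 2 + s / 2))
        - 7 * e * s ^ 6 / 1000 + 5 * e * s ^ 4 * r)
      (1 / 2 * r ^ 2 + e * (6 * ze s ^ 5 * (1 / 2 + s / 2) * (1 / 2 + s / 2) + ze s ^ 6 * (1 / 2))
        - 7 * e * (6 * s ^ 5) / 1000 + 5 * e * (4 * s ^ 3) * r) s :=
    (((hl.mul_const (r ^ 2)).add ((hz6.mul hl).const_mul e)).sub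
      ((h6.const_mul (7 * e)).div_const 1000)).add ((h4.const_mul (5 * e)).mul_const r)
  rw [h.deriv]; ring

/-- the function `u`. -/
noncomputable def U (m : ℕ) (e : ℝ) (t : ℝ) (y : Fin m → ℝ) : ℝ := uu e t (nsq y)

/-- the function `v`. -/
noncomputable def V (m : ℕ) (e : ℝ) (t : ℝ) (y : Fin m → ℝ) : ℝ := vv e t (nsq y)

lemma lap_U (m : ℕ) (e t : ℝ) (y : Fin m → ℝ) :
    lap (U m e) t y = 6 * e * t ^ 5 + 4 * (m + 2) * t * nsq y := by
  unfold lap U
  rw [deriv2_uu]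
  have := sum_lap t 0 (e * t ^ 7 / 7) y
  have h : ∀ j, (fun η => uu e t (nsq (Function.update y j η)))
      = (fun η => t * (nsq (Function.update y j η)) ^ 2
        + 0 * (nsq (Function.update y j η)) + e * t ^ 7 / 7) := by
    intro j; funext x; unfold uu; ring
  simp_rw [h]
  rw [this]; ring

lemma lap_V (m : ℕ) (e t : ℝ) (y : Fin m → ℝ) :
    lap (V m e) t y = nsq y ^ 2 / 2 + 6 * e * ze t ^ 5 * (1 / 2 + t / 2) ^ 2 + e * ze t ^ 6 / 2
      - 42 * e * t ^ 5 / 1000 + 20 * e * t ^ 3 * nsq y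
      + 4 * (m + 2) * ze t * nsq y + 2 * m * e * t ^ 5 := by
  unfold lap V
  rw [deriv2_vv]
  have := sum_lap (ze t) (e * t ^ 5) (e * ze t ^ 7 / 7 - e * t ^ 7 / 1000) y
  have h : ∀ j, (fun η => vv e t (nsq (Function.update y j η)))
      = (fun η => ze t * (nsq (Function.update y j η)) ^ 2
        + (e * t ^ 5) * (nsq (Function.update y j η)) + (e * ze t ^ 7 / 7 - e * t ^ 7 / 1000)) := by
    intro j; funext x; unfold vv; ring
  simp_rw [h]
  rw [this]; ring

/-! ### inequalities -/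

lemma ze_lower {s : ℝ} (hs : 0 < s) : s / 2 < ze s := by
  unfold ze; nlinarith [sq_nonneg s, pow_pos hs 2]

lemma ze_upper {s : ℝ} (hs : 0 < s) (hs1 : s < 1) : ze s < 3 * s / 4 := by
  unfold ze; nlinarith [mul_pos hs (sub_pos.2 hs1)]

lemma uu_lt_uu {e r a b : ℝ} (he : 0 < e) (_hr : 0 ≤ r) (ha : 0 ≤ a) (hab : a < b) :
    uu e a r < uu e b r := by
  unfold uu
  have h7 : a ^ 7 < b ^ 7 := pow_lt_pow_left₀ hab ha (by norm_num)
  have h1 : a * r ^ 2 ≤ b * r ^ 2 := by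
    apply mul_le_mul_of_nonneg_right hab.le (sq_nonneg r)
  have h2 : e * a ^ 7 < e * b ^ 7 := by
    apply mul_lt_mul_of_pos_left h7 he
  linarith

lemma vv_pos {e s r : ℝ} (he : 0 < e) (hs : 0 < s) (hr : 0 ≤ r) : 0 < vv e s r := by
  have hz := ze_lower hs
  have hz0 : 0 < ze s := by linarith
  have h7 : (s / 2) ^ 7 < ze s ^ 7 := pow_lt_pow_left₀ hz (by linarith) (by norm_num)
  have hs7 : 0 < s ^ 7 := pow_pos hs 7
  have h7' : s ^ 7 / 128 < ze s ^ 7 := by
    have : (s / 2) ^ 7 = s ^ 7 / 128 := by ring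
    linarith
  have key : 0 < ze s ^ 7 / 7 - s ^ 7 / 1000 := by
    nlinarith
  have h1 : 0 ≤ ze s * r ^ 2 := by positivity
  have h2 : 0 ≤ e * s ^ 5 * r := by positivity
  have h3 : 0 < e * (ze s ^ 7 / 7 - s ^ 7 / 1000) := mul_pos he key
  have : vv e s r = ze s * r ^ 2 + e * (ze s ^ 7 / 7 - s ^ 7 / 1000) + e * s ^ 5 * r := by
    unfold vv; ring
  rw [this]; linarith

lemma vv_lt_uu {e s r : ℝ} (he : 0 < e) (he1 : e < 1 / 10) (hs : 0 < s) (hs1 : s < 1)
    (_hr : 0 ≤ r) : vv e s r < uu e s r := by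
  have hz := ze_upper hs hs1
  have hz0 : 0 < ze s := by linarith [ze_lower hs]
  have h7 : ze s ^ 7 < (3 * s / 4) ^ 7 := pow_lt_pow_left₀ hz hz0.le (by norm_num)
  have hs7 : 0 < s ^ 7 := pow_pos hs 7
  have h7' : ze s ^ 7 < s ^ 7 * (2187 / 16384) := by
    have : (3 * s / 4) ^ 7 = s ^ 7 * (2187 / 16384) := by ring
    linarith
  have key : s ^ 7 / 10 < (s ^ 7 - ze s ^ 7) / 7 + s ^ 7 / 1000 := by
    nlinarith
  have h1 : s / 4 * r ^ 2 ≤ (s - ze s) * r ^ 2 := by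
    apply mul_le_mul_of_nonneg_right _ (sq_nonneg r); linarith
  have h3 : e * (s ^ 7 / 10) < e * ((s ^ 7 - ze s ^ 7) / 7 + s ^ 7 / 1000) :=
    mul_lt_mul_of_pos_left key he
  have e1 : uu e s r - vv e s r
      = (s - ze s) * r ^ 2 + e * ((s ^ 7 - ze s ^ 7) / 7 + s ^ 7 / 1000) - e * s ^ 5 * r := by
    unfold uu vv; ring
  have h4 : 0 ≤ s / 4 * r ^ 2 + e * (s ^ 7 / 10) - e * s ^ 5 * r := by
    have e2 : s / 4 * r ^ 2 + e * (s ^ 7 / 10) - e * s ^ 5 * r
        = s / 4 * (r - 2 * e * s ^ 4) ^ 2 + e * s ^ 7 * (1 / 10 - e * s ^ 2) := by ring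
    rw [e2]
    have hs2 : s ^ 2 ≤ 1 := by nlinarith
    have : e * s ^ 2 ≤ 1 / 10 := by nlinarith [pow_pos hs 2]
    have h5 : 0 ≤ e * s ^ 7 * (1 / 10 - e * s ^ 2) := by
      apply mul_nonneg (by positivity); linarith
    have h6 : 0 ≤ s / 4 * (r - 2 * e * s ^ 4) ^ 2 := by positivity
    linarith
  linarith

/-- The comparison inequality, in terms of the profiles. -/
lemma comparison (m : ℕ) (hm : 1 ≤ m) {e s t r : ℝ} (he : 0 < e)
    (hem : (2 * m + 15) * e ≤ 1 / 2000000) (ht : 0 < t) (hts : t ≤ s) (hs1 : s < 1)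
    (hr : 0 ≤ r) (heq : uu e t r = vv e s r) :
    6 * e * t ^ 5 + 4 * (m + 2) * t * r ≤
      r ^ 2 / 2 + 6 * e * ze s ^ 5 * (1 / 2 + s / 2) ^ 2 + e * ze s ^ 6 / 2
      - 42 * e * s ^ 5 / 1000 + 20 * e * s ^ 3 * r
      + 4 * (m + 2) * ze s * r + 2 * m * e * s ^ 5 := by
  have hs : 0 < s := lt_of_lt_of_le ht hts
  have hz := ze_upper hs hs1
  have hz0 : 0 < ze s := by linarith [ze_lower hs]
  have hm' : (1 : ℝ) ≤ m := by exact_mod_cast hm
  have hs5 : 0 < s ^ 5 := pow_pos hs 5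
  have hes5 : 0 < e * s ^ 5 := mul_pos he hs5
  have hp1 : 0 ≤ 6 * e * ze s ^ 5 * (1 / 2 + s / 2) ^ 2 := by positivity
  have hp2 : 0 ≤ e * ze s ^ 6 / 2 := by positivity
  have hp3 : 0 ≤ 20 * e * s ^ 3 * r := by positivity
  have hp4 : 2 * (e * s ^ 5) ≤ 2 * m * e * s ^ 5 := by nlinarith
  -- the equality, rearranged
  have heq' : uu e t r - uu e (ze s) r = e * s ^ 5 * (r - s ^ 2 / 1000) := by
    rw [heq]; unfold uu vv; ring
  rcases le_or_gt r (s ^ 2 / 1000) with hc | hc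
  · -- `θ ≥ 0`
    have htz : t ≤ ze s := by
      by_contra hcon
      push Not at hcon
      have := uu_lt_uu he hr hz0.le hcon
      have h2 : e * s ^ 5 * (r - s ^ 2 / 1000) ≤ 0 :=
        mul_nonpos_of_nonneg_of_nonpos hes5.le (by linarith)
      linarith
    have ht5 : t ^ 5 ≤ (3 * s / 4) ^ 5 :=
      pow_le_pow_left₀ ht.le (by linarith) 5
    have ht5' : e * t ^ 5 ≤ e * s ^ 5 * (243 / 1024) := by
      have h1 : (3 * s / 4) ^ 5 = s ^ 5 * (243 / 1024) := by ring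
      rw [h1] at ht5
      have := mul_le_mul_of_nonneg_left ht5 he.le
      linarith
    have h4 : 4 * (m + 2) * t * r ≤ 4 * (m + 2) * ze s * r := by
      apply mul_le_mul_of_nonneg_right _ hr
      apply mul_le_mul_of_nonneg_left htz
      positivity
    have h5 : 0 ≤ r ^ 2 / 2 := by positivity
    nlinarith
  · -- `θ < 0`
    have hr0 : 0 < r := lt_of_le_of_lt (by positivity) hc
    have htz : ze s < t := by
      by_contra hcon
      push Not at hcon
      have h1 : uu e t r ≤ uu e (ze s) r := by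
        rcases hcon.lt_or_eq with h | h
        · exact (uu_lt_uu he hr ht.le h).le
        · rw [h]
      have h2 : 0 < e * s ^ 5 * (r - s ^ 2 / 1000) := mul_pos hes5 (by linarith)
      linarith
    -- `(t - ζ) r ≤ e s^5`
    have hA : (t - ze s) * r ≤ e * s ^ 5 := by
      have h7 : ze s ^ 7 ≤ t ^ 7 := pow_le_pow_left₀ hz0.le htz.le 7
      have h7' : e * ze s ^ 7 ≤ e * t ^ 7 := mul_le_mul_of_nonneg_left h7 he.le
      have h8 : (t - ze s) * r ^ 2 ≤ e * s ^ 5 * (r - s ^ 2 / 1000) := by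
        have : uu e t r - uu e (ze s) r = (t - ze s) * r ^ 2 + (e * t ^ 7 - e * ze s ^ 7) / 7 := by
          unfold uu; ring
        linarith
      have h9 : (t - ze s) * r ^ 2 ≤ e * s ^ 5 * r := by
        have : 0 ≤ e * s ^ 5 * (s ^ 2 / 1000) := by positivity
        linarith
      have h10 : ((t - ze s) * r) * r ≤ (e * s ^ 5) * r := by linarith
      exact le_of_mul_le_mul_right h10 hr0
    have hB : 4 * (m + 2) * t * r - 4 * (m + 2) * ze s * r ≤ 4 * (m + 2) * (e * s ^ 5) := by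
      have : 4 * (m + 2) * t * r - 4 * (m + 2) * ze s * r = 4 * (m + 2) * ((t - ze s) * r) := by
        ring
      rw [this]
      apply mul_le_mul_of_nonneg_left hA
      positivity
    have hC : e * t ^ 5 ≤ e * s ^ 5 :=
      mul_le_mul_of_nonneg_left (pow_le_pow_left₀ ht.le hts 5) he.le
    -- `r² ≥ s⁴ / 10⁶`
    have hD : s ^ 5 / 1000000 ≤ r ^ 2 := by
      have h1 : (s ^ 2 / 1000) ^ 2 ≤ r ^ 2 := pow_le_pow_left₀ (by positivity) hc.le 2
      have h2 : s ^ 5 ≤ s ^ 4 := by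
        have : s ^ 5 = s ^ 4 * s := by ring
        have h4 : 0 < s ^ 4 := pow_pos hs 4
        nlinarith
      have h3 : (s ^ 2 / 1000) ^ 2 = s ^ 4 / 1000000 := by ring
      linarith
    have hE : (2 * m + 15) * (e * s ^ 5) ≤ r ^ 2 / 2 := by
      have h1 : (2 * m + 15) * e * s ^ 5 ≤ 1 / 2000000 * s ^ 5 :=
        mul_le_mul_of_nonneg_right hem hs5.le
      linarith
    nlinarith

/-! ### smoothness and finite order of vanishing -/

lemma contDiff_U (m : ℕ) (e : ℝ) :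
    ContDiff ℝ ∞ (fun p : ℝ × (Fin m → ℝ) => U m e p.1 p.2) := by
  unfold U uu nsq
  fun_prop

lemma contDiff_V (m : ℕ) (e : ℝ) :
    ContDiff ℝ ∞ (fun p : ℝ × (Fin m → ℝ) => V m e p.1 p.2) := by
  unfold V vv nsq ze
  fun_prop

lemma iteratedDeriv_poly (p : Polynomial ℝ) (k : ℕ) :
    iteratedDeriv k (fun x => p.eval x) = fun x => (Polynomial.derivative^[k] p).eval x := by
  induction k with
  | zero => simp
  | succ k ih =>
    rw [iteratedDeriv_succ, ih]
    funext x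
    rw [Polynomial.deriv, Function.iterate_succ_apply']

lemma iteratedDeriv_poly_zero (p : Polynomial ℝ) (k : ℕ) :
    iteratedDeriv k (fun x => p.eval x) 0 = (k.factorial : ℝ) * p.coeff k := by
  rw [iteratedDeriv_poly]
  simp only
  rw [← Polynomial.coeff_zero_eq_eval_zero, Polynomial.coeff_iterate_derivative]
  simp [Nat.descFactorial_self]

lemma nsq_zero (m : ℕ) : nsq (0 : Fin m → ℝ) = 0 := by simp [nsq]

open Polynomial in
lemma U_order (m : ℕ) {e : ℝ} (he : 0 < e) :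
    iteratedDeriv 7 (fun t => U m e t 0) 0 ≠ 0 := by
  have h : (fun t => U m e t 0) = fun x => (C (e / 7) * X ^ 7 : ℝ[X]).eval x := by
    funext t
    simp only [U, uu, nsq_zero, eval_mul, eval_C, eval_pow, eval_X]
    ring
  rw [h, iteratedDeriv_poly_zero]
  have : (C (e / 7) * X ^ 7 : ℝ[X]).coeff 7 = e / 7 := by
    rw [coeff_C_mul_X_pow]; simp
  rw [this]
  positivity

open Polynomial in
lemma V_order (m : ℕ) {e : ℝ} (he : 0 < e) :
    iteratedDeriv 7 (fun t => V m e t 0) 0 ≠ 0 := by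
  have h : (fun t => V m e t 0) = fun x =>
      (C (e / 7) * ((C (1 / 2) + C (1 / 4) * X) ^ 7 * X ^ 7) - C (e / 1000) * X ^ 7 : ℝ[X]).eval x := by
    funext t
    simp only [V, vv, nsq_zero, ze, eval_mul, eval_C, eval_pow, eval_X, eval_sub, eval_add]
    ring
  rw [h, iteratedDeriv_poly_zero]
  have : (C (e / 7) * ((C (1 / 2) + C (1 / 4) * X) ^ 7 * X ^ 7) - C (e / 1000) * X ^ 7 : ℝ[X]).coeff 7
      = e / 7 * (1 / 2) ^ 7 - e / 1000 := by
    rw [coeff_sub, coeff_C_mul_X_pow, coeff_C_mul]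
    have h1 : ((C (1 / 2) + C (1 / 4) * X) ^ 7 * X ^ 7 : ℝ[X]).coeff 7
        = ((C (1 / 2) + C (1 / 4) * X) ^ 7 : ℝ[X]).coeff 0 := by
      have := coeff_mul_X_pow ((C (1 / 2) + C (1 / 4) * X) ^ 7 : ℝ[X]) 7 0
      simpa using this
    rw [h1, coeff_zero_eq_eval_zero]
    simp
  rw [this]
  have : e / 7 * (1 / 2) ^ 7 - e / 1000 = e * (1 / 896 - 1 / 1000) := by ring
  rw [this]
  have h7 : (0 : ℝ) < (Nat.factorial 7 : ℝ) := by positivity
  have h8 : (0 : ℝ) < e * (1 / 896 - 1 / 1000) := mul_pos he (by norm_num)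
  exact (mul_pos h7 h8).ne'

/-- All the properties of the pair. -/
theorem main (m : ℕ) (hm : 1 ≤ m) : ∃ u v : ℝ → (Fin m → ℝ) → ℝ,
    ContDiff ℝ ∞ (fun p : ℝ × (Fin m → ℝ) => u p.1 p.2) ∧
    ContDiff ℝ ∞ (fun p : ℝ × (Fin m → ℝ) => v p.1 p.2) ∧
    (∀ t y, 0 < t → t < 1 → v t y < u t y) ∧
    (∀ t y, 0 < t → t < 1 → 0 < u t y ∧ 0 < v t y ∧ 0 < deriv (fun τ => u τ y) t) ∧
    (∀ y, u 0 y = 0) ∧
    (∀ t s y, 0 < t → t ≤ s → s < 1 → u t y = v s y → lap u t y ≤ lap v s y) ∧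
    deriv (fun τ => u τ 0) 0 = 0 ∧
    u 0 0 = 0 ∧ v 0 0 = 0 ∧
    iteratedDeriv 7 (fun t => u t 0) 0 ≠ 0 ∧ iteratedDeriv 7 (fun t => v t 0) 0 ≠ 0 := by
  set e : ℝ := 1 / (2000000 * (2 * m + 15)) with hedef
  have he : 0 < e := by positivity
  have hem : (2 * m + 15) * e ≤ 1 / 2000000 := by
    have : (2 * (m : ℝ) + 15) ≠ 0 := by positivity
    rw [hedef]
    apply le_of_eq
    field_simp
  have he1 : e < 1 / 10 := by
    have hm0 : (0 : ℝ) ≤ m := by positivity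
    nlinarith
  refine ⟨U m e, V m e, contDiff_U m e, contDiff_V m e, ?_, ?_, ?_, ?_, ?_, ?_, ?_,
    U_order m he, V_order m he⟩
  · intro t y ht ht1
    exact vv_lt_uu he he1 ht ht1 (nsq_nonneg y)
  · intro t y ht ht1
    have h1 : 0 < vv e t (nsq y) := vv_pos he ht (nsq_nonneg y)
    have h2 : vv e t (nsq y) < uu e t (nsq y) := vv_lt_uu he he1 ht ht1 (nsq_nonneg y)
    refine ⟨h1.trans h2, h1, ?_⟩
    have h3 : deriv (fun τ => U m e τ y) t = nsq y ^ 2 + e * t ^ 6 := by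
      have := congrFun (deriv_uu e (nsq y)) t
      exact this
    rw [h3]
    positivity
  · intro y
    simp [U, uu]
  · intro t s y ht hts hs1 heq
    rw [lap_U, lap_V]
    exact comparison m hm he hem ht hts hs1 (nsq_nonneg y) heq
  · have h3 : deriv (fun τ => U m e τ (0 : Fin m → ℝ)) 0 = nsq (0 : Fin m → ℝ) ^ 2 + e * 0 ^ 6 := by
      have := congrFun (deriv_uu e (nsq (0 : Fin m → ℝ))) 0
      exact this
    rw [h3, nsq_zero]; norm_num
  · simp [U, uu]
  · simp [V, vv, nsq_zero, ze]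

end Pool.Agent.TH155.Hopf
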